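import Pool.Agent.Lib.MP_524519_ag.DU5.AB.Iface

/-! # Module CF: `X^(p-1) dX = ∑ (D_l X)^p y_l^(p-1) dy_l + dE` -/

set_option autoImplicit false

namespace Pool.Agent.DU5.AB.H30

open Pool.Agent.DU5 Pool.Agent.DU5.AB

section

variable {k S : Type} [Field k] [CommRing S] [Algebra k S]

theorem add_pow_p (p : ℕ) [hp : Fact p.Prime] [CharP k p] (a b : S) :
    (a + b) ^ p = a ^ p + b ^ p := by
  rcases subsingleton_or_nontrivial S with h | h
  · exact Subsingleton.elim _ _
  · have : CharP S p := charP_of_injective_algebraMap (algebraMap k S).injective p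
    exact add_pow_char a b p

/-- The divided binomial coefficients. -/
theorem choose_facts (q : ℕ) (hq : (q + 1).Prime) (i : ℕ) (hi : i < q) :
    (i + 1) * ((q + 1).choose (i + 1) / (q + 1)) = q.choose i ∧
    (q - i) * ((q + 1).choose (i + 1) / (q + 1)) = q.choose (i + 1) := by
  obtain ⟨c, hc⟩ := hq.dvd_choose_self (Nat.succ_ne_zero i) (by omega : i + 1 < q + 1)
  have h1 : (q + 1).choose (i + 1) / (q + 1) = c := by
    rw [hc, Nat.mul_div_cancel_left _ (Nat.succ_pos q)]
  rw [h1]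
  constructor
  · have h2 := Nat.add_one_mul_choose_eq q i
    rw [hc] at h2
    have h3 : (q + 1) * q.choose i = (q + 1) * ((i + 1) * c) := by rw [h2]; ring
    exact (Nat.eq_of_mul_eq_mul_left (Nat.succ_pos q) h3).symm
  · have h2 := Nat.choose_mul_succ_eq q (i + 1)
    rw [hc] at h2
    have h3 : q + 1 - (i + 1) = q - i := by omega
    rw [h3] at h2
    have h4 : (q + 1) * q.choose (i + 1) = (q + 1) * ((q - i) * c) := by
      rw [mul_comm (q + 1) (q.choose (i + 1)), h2]; ring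
    exact (Nat.eq_of_mul_eq_mul_left (Nat.succ_pos q) h4).symm

/-- The potential of a sum. -/
theorem sum_potential (q : ℕ) (hq : (q + 1).Prime) (X Y : S) :
    ∃ Φ : S, ∀ D : Derivation k S S, D Φ =
      (X + Y) ^ q * (D X + D Y) - X ^ q * D X - Y ^ q * D Y := by
  refine ⟨∑ i ∈ Finset.range q,
    (((q + 1).choose (i + 1) / (q + 1) : ℕ) : S) * (X ^ (i + 1) * Y ^ (q - i)), fun D => ?_⟩
  have h1 : ∀ i ∈ Finset.range q,
      D ((((q + 1).choose (i + 1) / (q + 1) : ℕ) : S) * (X ^ (i + 1) * Y ^ (q - i))) =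
      X ^ i * Y ^ (q - i) * (q.choose i : S) * D X +
      X ^ (i + 1) * Y ^ (q - (i + 1)) * (q.choose (i + 1) : S) * D Y := by
    intro i hi
    have hi' : i < q := Finset.mem_range.mp hi
    obtain ⟨h2, h3⟩ := choose_facts q hq i hi'
    rw [← h2, ← h3]
    have h4 : q - i - 1 = q - (i + 1) := by omega
    simp only [Derivation.leibniz, Derivation.leibniz_pow, Derivation.map_natCast, smul_eq_mul,
      nsmul_eq_mul, Nat.add_sub_cancel, mul_zero, add_zero, h4]
    push_cast
    ring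
  rw [map_sum, Finset.sum_congr rfl h1, Finset.sum_add_distrib, ← Finset.sum_mul,
    ← Finset.sum_mul]
  have h5 : (X + Y) ^ q = ∑ i ∈ Finset.range q, X ^ i * Y ^ (q - i) * (q.choose i : S) + X ^ q := by
    rw [add_pow, Finset.sum_range_succ]
    simp
  have h6 : (X + Y) ^ q = ∑ i ∈ Finset.range q,
      X ^ (i + 1) * Y ^ (q - (i + 1)) * (q.choose (i + 1) : S) + Y ^ q := by
    rw [add_pow, Finset.sum_range_succ']
    simp
  have h7 : ∑ i ∈ Finset.range q, X ^ i * Y ^ (q - i) * (q.choose i : S) =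
      (X + Y) ^ q - X ^ q := by rw [h5]; ring
  have h8 : ∑ i ∈ Finset.range q, X ^ (i + 1) * Y ^ (q - (i + 1)) * (q.choose (i + 1) : S) =
      (X + Y) ^ q - Y ^ q := by
    conv_rhs => rw [h6]
    ring
  rw [h7, h8]
  ring

end

/-- CF. -/
theorem cf (hG : GENStatement) : CFStatement := by
  intro p hp k S _ _ _ _ D y hc
  obtain ⟨q, rfl⟩ : ∃ q, p = q + 1 := ⟨p - 1, by have := hp.out.pos; omega⟩
  have hp0 : q + 1 ≠ 0 := Nat.succ_ne_zero q
  simp only [Nat.add_sub_cancel]
  refine hG (q + 1) k S D y hc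
    (fun X => ∃ E : S, ∀ l, X ^ q * D l X = (D l X) ^ (q + 1) * y l ^ q + D l E) ?_ ?_ ?_ ?_
  · intro c hc0
    refine ⟨0, fun l => ?_⟩
    rw [hc0 l, zero_pow hp0, map_zero]; ring
  · intro m
    refine ⟨0, fun l => ?_⟩
    rw [hc.dual l m, map_zero]
    split_ifs with h
    · rw [h]; ring
    · rw [zero_pow hp0]; ring
  · rintro X Y ⟨EX, hX⟩ ⟨EY, hY⟩
    obtain ⟨Φ, hΦ⟩ := sum_potential (k := k) q hp.out X Y
    refine ⟨EX + EY + Φ, fun l => ?_⟩
    rw [map_add (D l), map_add (D l), map_add (D l), hΦ (D l), add_pow_p (k := k) (q + 1)]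
    linear_combination hX l + hY l
  · rintro X Y ⟨EX, hX⟩ ⟨EY, hY⟩
    refine ⟨X ^ (q + 1) * EY + Y ^ (q + 1) * EX, fun l => ?_⟩
    have h1 : D l (X * Y) = X * D l Y + Y * D l X := by
      rw [Derivation.leibniz, smul_eq_mul, smul_eq_mul]
    have h2 : D l (X ^ (q + 1) * EY + Y ^ (q + 1) * EX) =
        X ^ (q + 1) * D l EY + Y ^ (q + 1) * D l EX := by
      rw [map_add, Derivation.leibniz, Derivation.leibniz, der_pow_char (k := k) (q + 1) (D l) X,
        der_pow_char (k := k) (q + 1) (D l) Y]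
      simp only [smul_eq_mul, mul_zero, add_zero]
    rw [h1, h2, add_pow_p (k := k) (q + 1), mul_pow, mul_pow, mul_pow]
    linear_combination X ^ (q + 1) * hY l + Y ^ (q + 1) * hX l

end Pool.Agent.DU5.AB.H30
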